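import Mathlib

/-!
# Counting the irreducible polynomials over a finite field
-/

set_option autoImplicit false

namespace Pool.Agent.TH377.Sup

open Polynomial

universe u v

/-- the polynomial with the given coefficients -/
noncomputable def pol {R : Type u} [CommRing R] {d : ℕ} (c : Fin (d + 1) → R) : R[X] :=
  ∑ i : Fin (d + 1), C (c i) * X ^ (i : ℕ)

section

variable {R : Type u} [CommRing R] {S : Type v} [CommRing S] {d : ℕ}

lemma pol_coeff (c : Fin (d + 1) → R) (i : Fin (d + 1)) : (pol c).coeff (i : ℕ) = c i := by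
  rw [pol, finsetSum_coeff]
  simp only [coeff_C_mul, coeff_X_pow]
  rw [Finset.sum_eq_single i]
  · simp
  · intro j _ hj
    rw [if_neg, mul_zero]
    intro h
    exact hj (Fin.ext h.symm)
  · intro h
    exact absurd (Finset.mem_univ i) h

lemma pol_natDegree_le (c : Fin (d + 1) → R) : (pol c).natDegree ≤ d := by
  refine natDegree_sum_le_of_forall_le _ _ fun i _ => ?_
  refine (natDegree_C_mul_X_pow_le _ _).trans ?_
  have := i.2
  omega

lemma pol_coeff_last (c : Fin (d + 1) → R) : (pol c).coeff d = c (Fin.last d) := by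
  have := pol_coeff c (Fin.last d)
  rwa [Fin.val_last] at this

lemma pol_natDegree (c : Fin (d + 1) → R) (hc : c (Fin.last d) ≠ 0) : (pol c).natDegree = d := by
  refine le_antisymm (pol_natDegree_le c) (le_natDegree_of_ne_zero ?_)
  rwa [pol_coeff_last]

lemma pol_leadingCoeff (c : Fin (d + 1) → R) (hc : c (Fin.last d) ≠ 0) :
    (pol c).leadingCoeff = c (Fin.last d) := by
  rw [leadingCoeff, pol_natDegree c hc, pol_coeff_last]

lemma pol_map (φ : R →+* S) (c : Fin (d + 1) → R) : (pol c).map φ = pol fun i => φ (c i) := by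
  rw [pol, pol, Polynomial.map_sum]
  refine Finset.sum_congr rfl fun i _ => ?_
  rw [Polynomial.map_mul, Polynomial.map_pow, map_X, map_C]

lemma pol_of (p : R[X]) (hp : p.natDegree ≤ d) : pol (fun i : Fin (d + 1) => p.coeff i) = p := by
  ext n
  by_cases hn : n < d + 1
  · exact pol_coeff (fun i : Fin (d + 1) => p.coeff i) ⟨n, hn⟩
  · rw [coeff_eq_zero_of_natDegree_lt, coeff_eq_zero_of_natDegree_lt]
    · omega
    · exact lt_of_le_of_lt (pol_natDegree_le _) (by omega)

end

/-- the coefficients of the irreducible polynomials of degree `d` -/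
def Irr (κ : Type u) [Field κ] (d : ℕ) : Set (Fin (d + 1) → κ) :=
  {c | c (Fin.last d) ≠ 0 ∧ Irreducible (pol c)}

section finite

variable (κ : Type u) [Field κ] [Finite κ]

/-- the elements of small degree -/
lemma few (E : Type v) [Field E] [Algebra κ E] [Finite E] (d : ℕ) (hd : 3 ≤ d)
    (hE : Module.finrank κ E = d) :
    4 * {z : E | (minpoly κ z).natDegree ≠ d}.ncard ≤ 2 * Nat.card E := by
  classical
  set q := Nat.card κ with hq
  have hq2 : 2 ≤ q := Finite.one_lt_card
  have hfd : FiniteDimensional κ E := Module.finite_of_finrank_pos (by omega)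
  have hcardE : Nat.card E = q ^ d := by rw [← hE, Module.natCard_eq_pow_finrank (K := κ)]
  set m := d / 2 with hm
  have hroot : ∀ e : ℕ, 0 < e → {z : E | z ^ q ^ e = z}.ncard ≤ q ^ e := by
    intro e he
    have hne : (X ^ q ^ e - X : E[X]) ≠ 0 := FiniteField.X_pow_card_pow_sub_X_ne_zero _ he.ne' hq2
    have h1 : {z : E | z ^ q ^ e = z} ⊆ ((X ^ q ^ e - X : E[X]).roots.toFinset : Set E) := by
      intro z hz
      rw [Finset.mem_coe, Multiset.mem_toFinset, mem_roots hne, IsRoot.def, eval_sub, eval_pow,
        eval_X, sub_eq_zero]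
      exact hz
    refine (Set.ncard_le_ncard h1 (Finset.finite_toSet _)).trans ?_
    rw [Set.ncard_coe_finset]
    refine (Multiset.toFinset_card_le _).trans ((card_roots' _).trans ?_)
    rw [FiniteField.X_pow_card_pow_sub_X_natDegree_eq _ he.ne' hq2]
  have hsub : {z : E | (minpoly κ z).natDegree ≠ d} ⊆
      ⋃ e ∈ Finset.Icc 1 m, {z : E | z ^ q ^ e = z} := by
    intro z hz
    have hint : IsIntegral κ z := Algebra.IsIntegral.isIntegral z
    have hirr := minpoly.irreducible hint
    have hdvd : (minpoly κ z).natDegree ∣ d := by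
      rw [← hE]
      exact minpoly.degree_dvd hint
    have hpos : 0 < (minpoly κ z).natDegree := minpoly.natDegree_pos hint
    have hz' : (minpoly κ z).natDegree ≠ d := hz
    simp only [Set.mem_iUnion]
    refine ⟨(minpoly κ z).natDegree, ?_, ?_⟩
    · rw [Finset.mem_Icc]
      refine ⟨hpos, ?_⟩
      obtain ⟨t, ht⟩ := hdvd
      have ht2 : 2 ≤ t := by
        by_contra h
        have : t = 0 ∨ t = 1 := by omega
        rcases this with rfl | rfl
        · omega
        · rw [mul_one] at ht
          exact hz' ht.symm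
      rw [hm, Nat.le_div_iff_mul_le two_pos]
      calc (minpoly κ z).natDegree * 2 ≤ (minpoly κ z).natDegree * t := Nat.mul_le_mul_left _ ht2
        _ = d := ht.symm
    · have h1 := (hirr.natDegree_dvd_iff_dvd_X_pow_card_pow_sub_X (n := (minpoly κ z).natDegree)).1
        dvd_rfl
      have h2 := aeval_eq_zero_of_dvd_aeval_eq_zero h1 (minpoly.aeval κ z)
      rw [map_sub, map_pow, aeval_X, sub_eq_zero] at h2
      exact h2
  have h3 : {z : E | (minpoly κ z).natDegree ≠ d}.ncard ≤ ∑ e ∈ Finset.Icc 1 m, q ^ e := by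
    refine (Set.ncard_le_ncard hsub (Set.toFinite _)).trans ?_
    refine (Finset.set_ncard_biUnion_le _ _).trans ?_
    exact Finset.sum_le_sum fun e he => hroot e (Finset.mem_Icc.1 he).1
  have h4 : ∀ n : ℕ, ∑ e ∈ Finset.Icc 1 n, q ^ e ≤ 2 * q ^ n := by
    intro n
    induction n with
    | zero => simp
    | succ n ih =>
      rw [Finset.sum_Icc_succ_top (by omega)]
      have h5 : 2 * q ^ n ≤ q ^ (n + 1) := by
        rw [pow_succ, mul_comm]
        exact Nat.mul_le_mul_left _ hq2
      omega
  have h5 : 4 * q ^ m ≤ q ^ d := by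
    have h6 : d = m + (d - m) := by omega
    rw [h6, pow_add, mul_comm]
    refine Nat.mul_le_mul_left _ ?_
    calc 4 = 2 ^ 2 := by norm_num
      _ ≤ q ^ 2 := Nat.pow_le_pow_left hq2 2
      _ ≤ q ^ (d - m) := Nat.pow_le_pow_right (by omega) (by omega)
  rw [hcardE]
  have := h4 m
  omega

/-- there are many irreducible polynomials -/
theorem irr_card (d : ℕ) (hd : 3 ≤ d) :
    (Nat.card κ - 1) * Nat.card κ ^ d ≤ 2 * d * (Irr κ d).ncard := by
  classical
  obtain ⟨p, hp⟩ := CharP.exists κ
  have hpp : Fact p.Prime := ⟨CharP.char_is_prime κ p⟩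
  have hnz : NeZero d := ⟨by omega⟩
  let E := FiniteField.Extension κ p d
  have hE : Module.finrank κ E = d := FiniteField.finrank_extension κ p d
  have hcard : Nat.card E = Nat.card κ ^ d := FiniteField.natCard_extension κ p d
  have hfe := few κ E d hd hE
  have hFE : Fintype E := Fintype.ofFinite E
  have hFκ : Fintype κ := Fintype.ofFinite κ
  set B : Set E := {z : E | (minpoly κ z).natDegree ≠ d} with hB
  set G : Finset E := Finset.univ.filter fun z => (minpoly κ z).natDegree = d with hG
  have hGB : G.card + B.ncard = Nat.card E := by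
    have h1 : (G : Set E) = Bᶜ := by
      ext z
      simp [hG, hB]
    rw [← Set.ncard_coe_finset, h1, add_comm, Set.ncard_add_ncard_compl]
  let T : Finset (Fin (d + 1) → κ) := (Set.toFinite (Irr κ d)).toFinset
  have hT : T.card = (Irr κ d).ncard := (Set.ncard_eq_toFinset_card _ _).symm
  let Φ : κˣ × E → (Fin (d + 1) → κ) := fun x i => (C (x.1 : κ) * minpoly κ x.2).coeff i
  have hΦ : ∀ x : κˣ × E, x.2 ∈ G → pol (Φ x) = C (x.1 : κ) * minpoly κ x.2 := by
    intro x hx
    refine pol_of _ ?_
    rw [natDegree_C_mul x.1.ne_zero]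
    exact le_of_eq (Finset.mem_filter.1 hx).2
  have hlast : ∀ x : κˣ × E, x.2 ∈ G → Φ x (Fin.last d) = x.1 := by
    intro x hx
    have h1 : (minpoly κ x.2).natDegree = d := (Finset.mem_filter.1 hx).2
    have hmon : (minpoly κ x.2).Monic := minpoly.monic (Algebra.IsIntegral.isIntegral x.2)
    change (C (x.1 : κ) * minpoly κ x.2).coeff ((Fin.last d : Fin (d + 1)) : ℕ) = _
    rw [Fin.val_last, coeff_C_mul]
    have h2 : (minpoly κ x.2).coeff d = 1 := by
      have := hmon.coeff_natDegree
      rwa [h1] at this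
    rw [h2, mul_one]
  have key := Finset.card_le_mul_card_image_of_maps_to (f := Φ)
    (s := (Finset.univ : Finset κˣ) ×ˢ G) (t := T) (by
      intro x hx
      have hx2 : x.2 ∈ G := (Finset.mem_product.1 hx).2
      rw [Set.Finite.mem_toFinset]
      refine ⟨?_, ?_⟩
      · rw [hlast x hx2]
        exact x.1.ne_zero
      · rw [hΦ x hx2]
        have hirr := minpoly.irreducible (Algebra.IsIntegral.isIntegral (R := κ) x.2)
        exact (irreducible_isUnit_mul (isUnit_C.2 x.1.isUnit)).2 hirr) d (by
      intro c hc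
      rw [Set.Finite.mem_toFinset] at hc
      have h0 : (pol c).map (algebraMap κ E) ≠ 0 :=
        (Polynomial.map_ne_zero_iff (algebraMap κ E).injective).2 hc.2.ne_zero
      have h1 : ((((Finset.univ : Finset κˣ) ×ˢ G).filter fun x => Φ x = c).image Prod.snd).card ≤
          d := by
        have h2 : (((Finset.univ : Finset κˣ) ×ˢ G).filter fun x => Φ x = c).image Prod.snd ⊆
            ((pol c).map (algebraMap κ E)).roots.toFinset := by
          intro z hz
          obtain ⟨x, hx, rfl⟩ := Finset.mem_image.1 hz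
          obtain ⟨hx1, hx2⟩ := Finset.mem_filter.1 hx
          rw [Multiset.mem_toFinset, mem_roots h0, IsRoot.def, ← hx2,
            hΦ x (Finset.mem_product.1 hx1).2, eval_map_algebraMap, map_mul, minpoly.aeval,
            mul_zero]
        refine (Finset.card_le_card h2).trans ((Multiset.toFinset_card_le _).trans
          ((card_roots' _).trans ?_))
        exact natDegree_map_le.trans (pol_natDegree_le c)
      rwa [Finset.card_image_of_injOn] at h1
      intro x hx y hy hxy
      obtain ⟨hx1, hx2⟩ := Finset.mem_filter.1 (Finset.mem_coe.1 hx)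
      obtain ⟨hy1, hy2⟩ := Finset.mem_filter.1 (Finset.mem_coe.1 hy)
      refine Prod.ext ?_ hxy
      apply Units.ext
      rw [← hlast x (Finset.mem_product.1 hx1).2, ← hlast y (Finset.mem_product.1 hy1).2, hx2,
        hy2])
  rw [Finset.card_product, hT, Finset.card_univ, ← Nat.card_eq_fintype_card, Nat.card_units] at key
  have h6 : Nat.card κ ^ d ≤ 2 * G.card := by
    rw [← hcard]
    omega
  calc (Nat.card κ - 1) * Nat.card κ ^ d ≤ (Nat.card κ - 1) * (2 * G.card) :=
        Nat.mul_le_mul_left _ h6
    _ = 2 * ((Nat.card κ - 1) * G.card) := by ring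
    _ ≤ 2 * (d * (Irr κ d).ncard) := Nat.mul_le_mul_left _ key
    _ = 2 * d * (Irr κ d).ncard := by ring

end finite

end Pool.Agent.TH377.Sup
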