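import Pool.Agent.TH120.Sec.Loc2
import Pool.Agent.W858.SF.Emb
import Pool.Agent.TH377.Sup.Cnt

/-!
# The local theorem for a field embedded into a discretely valued field, irreducible reduction
-/

set_option autoImplicit false

namespace Pool.Agent.TH377.Sup

open Polynomial WithZero Pool.Agent.W620.SC Pool.Agent.W623.SecC Pool.Agent.TH120.Sec

universe u v w x

/-- the curve `a yˡ = f(x)` has neither points nor sections -/
def FineL {k : Type u} [Field k] (l : ℕ) (a : k) (f : k[X]) : Prop :=
  (∀ (F : Type v) (Ω : Type w) [Field F] [Field Ω] [Algebra k F] [Algebra F Ω] [Algebra k Ω]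
    [IsScalarTower k F Ω] [IsAlgClosed Ω] [Algebra.IsAlgebraic F Ω]
    (U : Set (ValuationSubring F)), (∀ O ∈ U, ∀ c : k, algebraMap k F c ∈ O) →
    ∀ x y : F, algebraMap k F a * y ^ l = aeval x f → IsEmpty (GSection k F Ω U)) ∧
  (∀ x y : k, a * y ^ l ≠ f.eval x) ∧ ∀ r : k, a * r ^ l ≠ f.leadingCoeff

lemma irr_of_map {κ κ' : Type*} [Field κ] [Field κ'] (φ : κ →+* κ') (p : κ[X])
    (h : Irreducible (p.map φ)) : Irreducible p := by
  refine ⟨fun hu => h.1 (hu.map (Polynomial.mapRingHom φ)), ?_⟩
  intro a b hab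
  have h1 : p.map φ = a.map φ * b.map φ := by rw [hab, Polynomial.map_mul]
  rcases h.2 h1 with h2 | h2
  · left
    rw [isUnit_iff_degree_eq_zero] at h2 ⊢
    rwa [degree_map] at h2
  · right
    rw [isUnit_iff_degree_eq_zero] at h2 ⊢
    rwa [degree_map] at h2

theorem fine_val {k : Type u} {E : Type x} [Field k] [CharZero k] [Field E]
    (V : Valuation E ℤᵐ⁰) [Finite (IsLocalRing.ResidueField V.valuationSubring)] (ψ : k →+* E)
    (l : ℕ) (hl : l.Prime) (h2 : l = 2 → V (2 : E) = 1) (g : k[X]) (gB : V.valuationSubring[X])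
    (hg : gB.map (algebraMap V.valuationSubring E) = g.map ψ) (hlc : IsUnit gB.leadingCoeff)
    (hirr : Irreducible (gB.map (IsLocalRing.residue V.valuationSubring)))
    (hd : l ∣ g.natDegree) (h3 : 3 ≤ g.natDegree)
    (a : k) (ha : V (ψ a) = exp (-1)) : Irreducible g ∧ FineL.{u, v, w} l a g := by
  classical
  obtain ⟨hdvr, ϖ, t, n, hϖ, ht, hn, hat⟩ := Pool.Agent.W858.SF.exists_unif (V.comap ψ) a (-1)
    (by decide) ha
  let i : (V.comap ψ).valuationSubring →+* V.valuationSubring :=
    { toFun := fun y => ⟨ψ y, y.2⟩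
      map_one' := Subtype.ext (map_one ψ)
      map_mul' := fun y z => Subtype.ext (map_mul ψ _ _)
      map_zero' := Subtype.ext (map_zero ψ)
      map_add' := fun y z => Subtype.ext (map_add ψ _ _) }
  have hcoe : ∀ y, ((i y : V.valuationSubring) : E) = ψ (y : k) := fun _ => rfl
  have hinj : Function.Injective i := by
    intro y z hyz
    apply Subtype.ext
    apply ψ.injective
    have := congrArg Subtype.val hyz
    exact this
  have hloc : IsLocalHom i := by
    refine ⟨fun y hy => ?_⟩
    have h1 := (Valuation.Integers.isUnit_iff_valuation_eq_one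
      (Valuation.valuationSubring.integers V)).1 hy
    exact (Valuation.Integers.isUnit_iff_valuation_eq_one
      (Valuation.valuationSubring.integers (V.comap ψ))).2 h1
  have hfin : Finite (IsLocalRing.ResidueField (V.comap ψ).valuationSubring) :=
    Finite.of_injective _ (IsLocalRing.ResidueField.map i).injective
  obtain ⟨f, hf⟩ : ∃ f : (V.comap ψ).valuationSubring[X],
      f.map (algebraMap (V.comap ψ).valuationSubring k) = g := by
    have h1 : g ∈ Polynomial.lifts (algebraMap (V.comap ψ).valuationSubring k) := by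
      rw [Polynomial.lifts_iff_coeff_lifts]
      intro j
      have h3 : ψ (g.coeff j) = (gB.coeff j : E) := by
        have := congrArg (fun q => q.coeff j) hg
        simp only [coeff_map] at this
        exact this.symm
      exact ⟨⟨g.coeff j, by
        change V (ψ (g.coeff j)) ≤ 1
        rw [h3]
        exact (gB.coeff j).2⟩, rfl⟩
    obtain ⟨f, hf⟩ := (Polynomial.mem_lifts _).1 h1
    exact ⟨f, hf⟩
  have hfB : f.map i = gB := by
    apply Polynomial.map_injective (algebraMap V.valuationSubring E) Subtype.val_injective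
    rw [hg, ← hf, Polynomial.map_map, Polynomial.map_map]
    rfl
  have hdeg : f.natDegree = g.natDegree := by
    rw [← hf]
    exact (natDegree_map_eq_of_injective Subtype.val_injective f).symm
  have hlcf : IsUnit f.leadingCoeff := by
    have h1 : i f.leadingCoeff = gB.leadingCoeff := by
      rw [← hfB]
      exact (leadingCoeff_map_of_injective hinj f).symm
    rw [← h1] at hlc
    exact hloc.map_nonunit _ hlc
  have hfi : Irreducible (f.map (IsLocalRing.residue (V.comap ψ).valuationSubring)) := by
    refine irr_of_map (IsLocalRing.ResidueField.map i) _ ?_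
    rw [Polynomial.map_map, IsLocalRing.ResidueField.map_comp_residue, ← Polynomial.map_map, hfB]
    exact hirr
  have hdegr : (f.map (IsLocalRing.residue (V.comap ψ).valuationSubring)).natDegree =
      g.natDegree := by
    rw [← hdeg]
    exact natDegree_map_of_leadingCoeff_ne_zero _ (hlcf.map _).ne_zero
  have hsf : (f.map (IsLocalRing.residue (V.comap ψ).valuationSubring)).Separable := by
    have hperf : PerfectField (IsLocalRing.ResidueField (V.comap ψ).valuationSubring) :=
      inferInstance
    exact PerfectField.separable_of_irreducible hfi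
  have hrf : ∀ b, f.eval b ∉ IsLocalRing.maximalIdeal (V.comap ψ).valuationSubring := by
    intro b hb
    have h1 : (f.map (IsLocalRing.residue (V.comap ψ).valuationSubring)).IsRoot
        (IsLocalRing.residue _ b) := by
      rw [IsRoot.def, eval_map, eval₂_at_apply]
      exact (IsLocalRing.residue_eq_zero_iff _).2 hb
    have h4 := degree_eq_one_of_irreducible_of_root hfi h1
    have h5 : (f.map (IsLocalRing.residue (V.comap ψ).valuationSubring)).natDegree = 1 :=
      natDegree_eq_of_degree_eq_some h4
    rw [hdegr] at h5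
    omega
  have hak : a = algebraMap (V.comap ψ).valuationSubring k t *
      algebraMap (V.comap ψ).valuationSubring k ϖ ^ n := hat
  have hn1 : n = 1 ∨ n = -1 := by
    have e1 : V (ψ (t : k)) = 1 := (Valuation.Integers.isUnit_iff_valuation_eq_one
      (Valuation.valuationSubring.integers (V.comap ψ))).1 ht
    have e2 : ψ (ϖ : k) ≠ 0 := by
      rw [Ne, map_eq_zero]
      intro h
      exact hϖ.ne_zero (Subtype.ext h)
    have e3 : V (ψ (ϖ : k)) = exp (log (V (ψ (ϖ : k)))) :=
      (exp_log ((Valuation.ne_zero_iff V).2 e2)).symm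
    have e4 : V (ψ a) = exp (n * log (V (ψ (ϖ : k)))) := by
      rw [hat, map_mul, map_mul, map_zpow₀, map_zpow₀, e1, one_mul]
      conv_lhs => rw [e3]
      rw [← exp_zsmul, smul_eq_mul]
    rw [ha, exp_inj] at e4
    have e5 : IsUnit n := by
      refine IsUnit.of_mul_eq_one (-log (V (ψ (ϖ : k)))) ?_
      rw [mul_neg, ← e4]
      norm_num
    exact Int.isUnit_iff.1 e5
  -- the points
  have hϖn : ¬ (l : ℤ) ∣ n := by
    intro h
    have h1 : (l : ℤ) ∣ 1 := by
      rcases hn1 with rfl | rfl
      · exact h
      · rwa [Int.dvd_neg] at h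
    have h4 : l ∣ 1 := by exact_mod_cast h1
    exact hl.one_lt.ne' (Nat.dvd_one.1 h4)
  have hinf : ∀ r : k, a * r ^ l ≠ g.leadingCoeff := by
    intro r hr
    have e1 : V (ψ g.leadingCoeff) = 1 := by
      have h1 : algebraMap (V.comap ψ).valuationSubring k f.leadingCoeff = g.leadingCoeff := by
        rw [← leadingCoeff_map_of_injective (f := algebraMap (V.comap ψ).valuationSubring k)
          Subtype.val_injective f, hf]
      rw [← h1]
      exact (Valuation.Integers.isUnit_iff_valuation_eq_one
        (Valuation.valuationSubring.integers (V.comap ψ))).1 hlcf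
    rw [← hr, map_mul, map_pow, map_mul, map_pow, ha] at e1
    have e2 : V (ψ r) ≠ 0 := by
      intro h0
      rw [h0, zero_pow hl.ne_zero, mul_zero] at e1
      exact zero_ne_one e1
    rw [← exp_log e2, ← exp_nsmul, ← exp_add, ← exp_zero, exp_inj, nsmul_eq_mul] at e1
    have h1 : (l : ℤ) ∣ 1 := ⟨log (V (ψ r)), by linarith⟩
    have h4 : l ∣ 1 := by exact_mod_cast h1
    exact hl.one_lt.ne' (Nat.dvd_one.1 h4)
  have hgirr : Irreducible g := by
    obtain ⟨u, hu⟩ := hlcf
    have hmon : (C ((u⁻¹ : ((V.comap ψ).valuationSubring)ˣ) : (V.comap ψ).valuationSubring) *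
        f).Monic := by
      rw [Monic, leadingCoeff_mul, leadingCoeff_C, ← hu, Units.inv_mul]
    have h4 : Irreducible (C ((u⁻¹ : ((V.comap ψ).valuationSubring)ˣ) :
        (V.comap ψ).valuationSubring) * f) := by
      refine hmon.irreducible_of_irreducible_map
        (IsLocalRing.residue (V.comap ψ).valuationSubring) _ ?_
      rw [Polynomial.map_mul, map_C]
      exact (irreducible_isUnit_mul (isUnit_C.2 ((u⁻¹).isUnit.map _))).2 hfi
    have h5 := (hmon.irreducible_iff_irreducible_map_fraction_map (K := k)).1 h4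
    rw [Polynomial.map_mul, map_C, hf] at h5
    exact (irreducible_isUnit_mul (isUnit_C.2 ((u⁻¹).isUnit.map _))).1 h5
  refine ⟨hgirr, ?_⟩
  by_cases hl2 : l = 2
  · subst hl2
    have hev : Even f.natDegree := by
      rw [hdeg]
      exact even_iff_two_dvd.2 hd
    have h4 : 4 ≤ f.natDegree := by
      obtain ⟨j, hj⟩ := hev
      omega
    have h2A : IsUnit (2 : (V.comap ψ).valuationSubring) := by
      refine (Valuation.Integers.isUnit_iff_valuation_eq_one
        (Valuation.valuationSubring.integers (V.comap ψ))).2 ?_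
      change V (ψ 2) = 1
      rw [map_ofNat, h2 rfl]
    refine ⟨?_, ?_, hinf⟩
    · intro F Ω _ _ _ _ _ _ _ _ U hU x y hxy
      refine local_no_section h2A f hlcf hsf hev h4 hrf ϖ hϖ a t ht n hn hak U hU x y ?_
      rw [hxy, hf]
    · intro x y
      have := no_affine_point ϖ hϖ f hlcf hev hrf a t ht n hn hak x y
      rwa [hf] at this
  · have hcyc : ∀ m : ℕ, ¬ l ∣ m → IsCoprime
        (X ^ (Nat.card (IsLocalRing.ResidueField (V.comap ψ).valuationSubring) ^ m) - X)
        (f.map (IsLocalRing.residue (V.comap ψ).valuationSubring)) := by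
      intro m hm
      refine IsCoprime.symm ((hfi.coprime_iff_not_dvd).2 fun hdvd => hm ?_)
      have h4 := hfi.natDegree_dvd_iff_dvd_X_pow_card_pow_sub_X.2 hdvd
      rw [hdegr] at h4
      exact hd.trans h4
    have hprod1 : ∏ _i : Unit, f = f := by simp
    have hprod2 : ∏ _i : Unit, f ^ 1 = f := by simp
    refine ⟨?_, ?_, hinf⟩
    · intro F Ω _ _ _ _ _ _ _ _ U hU x y hxy
      refine local_odd l hl hl2 (fun _ : Unit => f) (fun _ => 1)
        (fun _ => hl.one_lt.ne' ∘ Nat.dvd_one.1) (fun _ => hlcf) (by rwa [hprod1])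
        (by rwa [hprod1]) ϖ hϖ a t ht n hϖn hak U hU x y ?_
      rw [hxy, hprod2, hf]
    · intro x y
      have := local_odd_pt l hl hl2 (fun _ : Unit => f) (fun _ => 1)
        (fun _ => hl.one_lt.ne' ∘ Nat.dvd_one.1) (fun _ => hlcf) (by rwa [hprod1])
        (by rwa [hprod1]) ϖ hϖ a t ht n hϖn hak x y
      rwa [hprod2, hf] at this

end Pool.Agent.TH377.Sup
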