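import Pool.Agent.W858.SF.Comp
import Pool.Agent.TH377.Sup.Val
import Pool.Agent.TH377.Sup.Good

/-!
# The curves over a field embedded into the completion of a number field
-/

set_option autoImplicit false

namespace Pool.Agent.TH377.Sup

open Polynomial WithZero NumberField IsDedekindDomain Pool.Agent.W858.SF

universe u v w x y

lemma val_eq_of {L : Type x} [Field L] [NumberField L] (v : HeightOneSpectrum (𝓞 L)) (b : 𝓞 L)
    (hb : b ∈ v.asIdeal) (hb' : b ∉ v.asIdeal ^ 2) :
    v.valuation L (algebraMap (𝓞 L) L b) = exp (-1) := by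
  rw [HeightOneSpectrum.valuation_of_algebraMap]
  have h1 : v.intValuation b ≤ exp (-1) := by
    have := (v.intValuation_le_pow_iff_mem b 1).2 (by rwa [pow_one])
    exact_mod_cast this
  have h2 : ¬ v.intValuation b ≤ exp (-2) := by
    intro h
    apply hb'
    refine (v.intValuation_le_pow_iff_mem b 2).1 ?_
    exact_mod_cast h
  refine le_antisymm h1 ?_
  by_contra h3
  apply h2
  rw [not_le] at h3
  by_cases h0 : v.intValuation b = 0
  · rw [h0]
    exact zero_le
  · rw [← exp_log h0, exp_lt_exp] at h3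
    rw [← exp_log h0, exp_le_exp]
    omega

theorem fine_embR {L : Type x} [Field L] [NumberField L] (v : HeightOneSpectrum (𝓞 L))
    {R : Type y} [CommRing R] {k : Type u} [Field k] [CharZero k] [Algebra R k]
    (P : R →+* L) (ψ : k →+* v.adicCompletion L)
    (hPint : ∀ r, v.valuation L (P r) ≤ 1)
    (hψ : ∀ r, vv v (ψ (algebraMap R k r) - algebraMap L (v.adicCompletion L) (P r)) ≤ exp (-2))
    (h2 : (2 : 𝓞 L) ∉ v.asIdeal) {d : ℕ} (h3 : 3 ≤ d) (c : Fin (d + 2) → R)
    (y : Fin (d + 2) → 𝓞 L)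
    (hcy : ∀ i, v.valuation L (P (c i) - algebraMap (𝓞 L) L (y i)) ≤ exp (-2))
    (hy : y 0 ∈ v.asIdeal) (hy' : y 0 ∉ v.asIdeal ^ 2) (hirr : IrrMod v d fun i => y i.succ)
    (l : ℕ) (hl : l.Prime) (hd : l ∣ d) :
    algebraMap R k (c 0) ≠ 0 ∧ algebraMap R k (c (Fin.last d).succ) ≠ 0 ∧
    Irreducible (pol fun i : Fin (d + 1) => algebraMap R k (c i.succ)) ∧
    FineL.{u, v, w} l (algebraMap R k (c 0))
      (pol fun i : Fin (d + 1) => algebraMap R k (c i.succ)) := by
  classical
  have hfinres := finite_residue v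
  have hmax : v.asIdeal.IsMaximal := v.isMaximal
  let _ := Ideal.Quotient.field v.asIdeal
  obtain ⟨θ, hθ, hθr⟩ := exists_residue_map v
  have hθinj : Function.Injective θ := θ.injective
  have hγ2 : (exp (-2) : ℤᵐ⁰) < 1 := by
    rw [← exp_zero, exp_lt_exp]
    omega
  have hPv : ∀ r, vv v (algebraMap L (v.adicCompletion L) (P r)) ≤ 1 := fun r => by
    rw [vv_algebraMap]
    exact hPint r
  have hψ1 : ∀ r, vv v (ψ (algebraMap R k r)) ≤ 1 := by
    intro r
    have h1 : ψ (algebraMap R k r) = (ψ (algebraMap R k r) -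
      algebraMap L (v.adicCompletion L) (P r)) + algebraMap L (v.adicCompletion L) (P r) := by ring
    rw [h1]
    exact (Valuation.map_add _ _ _).trans (max_le ((hψ r).trans hγ2.le) (hPv r))
  have hnear : ∀ i, vv v (ψ (algebraMap R k (c i)) -
      algebraMap L (v.adicCompletion L) (algebraMap (𝓞 L) L (y i))) ≤ exp (-2) := by
    intro i
    have h1 : ψ (algebraMap R k (c i)) -
        algebraMap L (v.adicCompletion L) (algebraMap (𝓞 L) L (y i)) =
        (ψ (algebraMap R k (c i)) - algebraMap L (v.adicCompletion L) (P (c i))) +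
        algebraMap L (v.adicCompletion L) (P (c i) - algebraMap (𝓞 L) L (y i)) := by
      rw [map_sub]
      ring
    rw [h1]
    refine (Valuation.map_add _ _ _).trans (max_le (hψ _) ?_)
    rw [vv_algebraMap]
    exact hcy i
  let cB : Fin (d + 1) → (vv v).valuationSubring := fun i => ⟨ψ (algebraMap R k (c i.succ)), hψ1 _⟩
  have hres : ∀ i, IsLocalRing.residue _ (cB i) = θ (Ideal.Quotient.mk v.asIdeal (y i.succ)) := by
    intro i
    exact hθr _ _ ((hnear i.succ).trans_lt hγ2)
  have hlast : IsUnit (cB (Fin.last d)) := by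
    have h5 : cB (Fin.last d) ∉ IsLocalRing.maximalIdeal (vv v).valuationSubring := by
      intro h6
      have h7 : IsLocalRing.residue _ (cB (Fin.last d)) = 0 :=
        (IsLocalRing.residue_eq_zero_iff _).2 h6
      rw [hres, map_eq_zero_iff _ hθinj, Ideal.Quotient.eq_zero_iff_mem] at h7
      exact hirr.1 h7
    by_contra h6
    exact h5 ((IsLocalRing.mem_maximalIdeal _).2 h6)
  have hlast0 : cB (Fin.last d) ≠ 0 := hlast.ne_zero
  have hck : algebraMap R k (c (Fin.last d).succ) ≠ 0 := by
    intro h0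
    apply hlast0
    apply Subtype.ext
    change ψ (algebraMap R k (c (Fin.last d).succ)) = 0
    rw [h0, map_zero]
  have ha : vv v (ψ (algebraMap R k (c 0))) = exp (-1) := by
    have h5 : ψ (algebraMap R k (c 0)) = (ψ (algebraMap R k (c 0)) -
      algebraMap L (v.adicCompletion L) (algebraMap (𝓞 L) L (y 0))) +
      algebraMap L (v.adicCompletion L) (algebraMap (𝓞 L) L (y 0)) := by ring
    have h7 := val_eq_of v (y 0) hy hy'
    have h6 : vv v (ψ (algebraMap R k (c 0)) - algebraMap L (v.adicCompletion L)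
        (algebraMap (𝓞 L) L (y 0))) <
        vv v (algebraMap L (v.adicCompletion L) (algebraMap (𝓞 L) L (y 0))) := by
      rw [vv_algebraMap, h7]
      refine (hnear 0).trans_lt ?_
      rw [exp_lt_exp]
      omega
    rw [h5, Valuation.map_add_eq_of_lt_right _ h6, vv_algebraMap, h7]
  refine ⟨?_, hck, ?_⟩
  · intro h0
    rw [h0, map_zero, map_zero] at ha
    exact exp_ne_zero ha.symm
  refine fine_val (vv v) ψ l hl ?_ _ (pol cB) ?_ ?_ ?_ ?_ ?_ _ ha
  · intro _
    have h3 : (2 : v.adicCompletion L) =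
        algebraMap L (v.adicCompletion L) (algebraMap (𝓞 L) L 2) := by
      rw [map_ofNat, map_ofNat]
    rw [h3, vv_algebraMap]
    exact (HeightOneSpectrum.valuation_eq_one_iff_notMem v).2 h2
  · rw [pol_map, pol_map]
    rfl
  · rw [pol_leadingCoeff _ hlast0]
    exact hlast
  · have h4 : (pol cB).map (IsLocalRing.residue (vv v).valuationSubring) =
        (pol fun i : Fin (d + 1) => Ideal.Quotient.mk v.asIdeal (y i.succ)).map θ := by
      rw [pol_map, pol_map]
      simp only [hres]
    rw [h4]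
    exact (MulEquiv.irreducible_iff (Polynomial.mapEquiv
      (RingEquiv.ofBijective θ ⟨hθinj, hθ⟩)).toMulEquiv).2 hirr.2
  · rwa [pol_natDegree _ hck]
  · rwa [pol_natDegree _ hck]

end Pool.Agent.TH377.Sup
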