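import Pool.Agent.TH120.Sec.Split
import Pool.Agent.TH377.Sup.EmbR

/-!
# Number fields
-/

set_option autoImplicit false

namespace Pool.Agent.TH377.Sup

open Polynomial WithZero NumberField IsDedekindDomain Pool.Agent.W858.SF
open Pool.Agent.TH120.Sec (red DZ dz_of_supply supply_split)

universe u v w

/-- all the assertions about the curves with the coefficients `c` -/
def GoodK {K : Type u} [Field K] {d : ℕ} (c : Fin (d + 2) → 𝓞 K) : Prop :=
  (c 0 : K) ≠ 0 ∧ (c (Fin.last d).succ : K) ≠ 0 ∧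
    Irreducible (pol fun i : Fin (d + 1) => (c i.succ : K)) ∧
    ∀ l : ℕ, l.Prime → l ∣ d → FineL.{u, v, w} l (c 0 : K)
      (pol fun i : Fin (d + 1) => (c i.succ : K))

theorem good_of_mod {K : Type u} [Field K] [NumberField K] (v : HeightOneSpectrum (𝓞 K))
    (h2 : (2 : 𝓞 K) ∉ v.asIdeal) {d : ℕ} (hd : 3 ≤ d) (c : Fin (d + 2) → 𝓞 K)
    (hc : red (v.asIdeal ^ 2) (d + 2) c ∈ GoodV v d) : GoodK.{u, v, w} c := by
  obtain ⟨g1, g2, g3⟩ := good_iff v d c hc
  have key := fun l hl hld => fine_embR.{u, v, w} v (R := 𝓞 K) (k := K) (algebraMap (𝓞 K) K)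
    (algebraMap K (v.adicCompletion K)) (fun r => v.valuation_le_one r) (fun r => by
      rw [sub_self, map_zero]
      exact zero_le) h2 hd c c (fun i => by
      rw [sub_self, map_zero]
      exact zero_le) g1 g2 g3 l hl hld
  obtain ⟨l0, hl0, hld0⟩ := Nat.exists_prime_and_dvd (show d ≠ 1 by omega)
  have key0 := key l0 hl0 hld0
  exact ⟨key0.1, key0.2.1, key0.2.2.1, fun l hl hld => (key l hl hld).2.2.2⟩

theorem dz_all (K : Type u) [Field K] [NumberField K] (d : ℕ) (hd : 3 ≤ d) :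
    DZ (d + 2) {c : Fin (d + 2) → 𝓞 K | ¬ GoodK.{u, v, w} c} := by
  have hδ1 : (1 / (4 * d) : ℝ) ≤ 1 := by
    have : (3 : ℝ) ≤ d := by exact_mod_cast hd
    rw [div_le_one (by linarith)]
    linarith
  have hδ0 : (0 : ℝ) < 1 / (4 * d) := by
    have : (3 : ℝ) ≤ d := by exact_mod_cast hd
    positivity
  refine dz_of_supply (d + 2) (fun v => (2 : 𝓞 K) ∉ v.asIdeal) (fun v => (GoodV v d)ᶜ)
    (1 / (4 * d)) ?_ (fun v _ => badV_card v d hd) _ ?_
  · intro ε hε
    obtain ⟨T, hT, hTε⟩ := supply_split (K := K) 2 Nat.prime_two (2 : 𝓞 K) two_ne_zero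
      (1 / (4 * d) : ℝ) hδ0 hδ1 ε hε
    exact ⟨T, fun v hv => (hT v hv).1, hTε⟩
  · intro c hc v hv hgood
    exact hc (good_of_mod v hv hd c hgood)

end Pool.Agent.TH377.Sup
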